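import Pool.Agent.Lib.MP_aa7e4d_lc.H48.Model
import Pool.Agent.Lib.MP_aa7e4d_lc.H48.ModelDefs

open FirstOrder FirstOrder.Language Pool.Agent.SFC

namespace Pool.Agent.Results.MP_aa7e4d_lc.StableForkingFails

/-- The stable forking conjecture is false.  There is a complete simple theory `T` in a finite
relational language which does not have stable forking, neither for the types `tp(a/Cb)` nor for
types over models.  In fact there are a countable model `N` of `T`, elementary substructures
`M₀ ⊆ M` of `N` and elements `b ∈ M`, `a ∈ N` such that the type of `a` over `M₀ ∪ {b}` forks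
over `M₀`, and every formula `φ(x; d)` with parameters `d` in `M` which is true of `a` and forks
over `M₀` has the order property, even with the parameters in `M₀` kept fixed: there are `A i`
and tuples `D j` in `N`, which agree with `d` where `d` has its values in `M₀`, such that
`φ(A i; D j)` holds if and only if `i < j`. -/
theorem result :
    ∃ L : FirstOrder.Language.{0, 0}, L.IsRelational ∧ Finite L.Symbols ∧
      ∃ T : L.Theory, T.IsComplete ∧ Simple T ∧ ¬ StableForking T ∧
        ¬ StableForkingOverModels T ∧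
        ∃ (N : Type) (_ : L.Structure N) (_ : Nonempty N) (_ : N ⊨ T) (_ : Countable N)
          (M₀ M : L.ElementarySubstructure N) (a b : N),
          (M₀ : Set N) ⊆ (M : Set N) ∧ b ∈ (M : Set N) ∧
          TypeForks (L := L) (M₀ : Set N) ((M₀ : Set N) ∪ {b}) (fun _ : Fin 1 => a) ∧
          ∀ (r : ℕ) (φ : L.Formula (Fin 1 ⊕ Fin r)) (d : Fin r → N),
            (∀ s, d s ∈ (M : Set N)) →
            φ.Realize (Sum.elim (fun _ => a) d) → Forks (M₀ : Set N) φ d →
            ∃ (A : ℕ → N) (D : ℕ → Fin r → N), (∀ j s, d s ∈ (M₀ : Set N) → D j s = d s) ∧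
              ∀ i j, (φ.Realize (Sum.elim (fun _ => A i) (D j)) ↔ i < j) := by
  obtain ⟨T, hT, hS, N, iN, hne, hN, hcount, M₀, M, a, b, hsub, hb, hfork, hst⟩ := H48.model
  have hns : ∀ (r : ℕ) (φ : Lang.Formula (Fin 1 ⊕ Fin r)) (d : Fin r → N),
      (∀ s, d s ∈ (M : Set N)) → φ.Realize (Sum.elim (fun _ => a) d) →
      Forks (M₀ : Set N) φ d → ¬ StableFormula T φ := by
    intro r φ d hd hφ hF hstab
    obtain ⟨A, D, -, hAD⟩ := hst r φ d hd hφ hF
    exact hstab ⟨N, iN, hN, hne, fun i _ => A i, D, hAD⟩
  have hsub' : (M₀ : Set N) ∪ {b} ⊆ (M : Set N) := by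
    rintro x (hx | hx)
    · exact hsub hx
    · rw [show x = b from hx]
      exact hb
  refine ⟨Lang, H6.isRelational, H6.finite_symbols, T, hT, hS, ?_, ?_, N, iN, hne, hN, hcount,
    M₀, M, a, b, hsub, hb, hfork, hst⟩
  · intro hsf
    have hr : Set.range (fun _ : Fin 1 => b) = {b} := by
      ext x
      simp [eq_comm]
    obtain ⟨r, φ, d, hd, hstab, hφ, hF⟩ := hsf N hN (M₀ : Set N) 1 1 (fun _ => a) (fun _ => b) (by
      rw [hr]
      exact hfork)
    rw [hr] at hd
    exact hns r φ d (fun s => hsub' (hd s)) hφ hF hstab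
  · intro hsf
    obtain ⟨r, φ, d, hd, hstab, hφ, hF⟩ := hsf N hN M₀ M hsub 1 (fun _ => a) (hfork.mono hsub')
    exact hns r φ d hd hφ hF hstab

end Pool.Agent.Results.MP_aa7e4d_lc.StableForkingFails
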